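import Mathlib

/-!
# MP_645dd0_co: minimum `K_3^3`-saturated graphs of even order

For every even `n ≥ 8` the graph `K_1 ∨ ((n-6)/2 K_2 ∪ K_{1,4})` is `K_3^3`-saturated, has as many
edges as `H_n = K_1 ∨ ((n-4)/2 K_2 ∪ K_3)` and is not isomorphic to it.  Hence `H_n` is never the
only `K_3^3`-saturated graph on `n` vertices with the least number of edges.
-/

namespace Pool.Agent.Results.MP_645dd0_co.SecondExtremalGraph

open SimpleGraph

/-- The graph `K_3^3`: the triangle `0, 1, 2` with the pendant edges `03`, `14`, `25`. -/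
def net : SimpleGraph (Fin 6) :=
  fromEdgeSet {s(0, 1), s(1, 2), s(0, 2), s(0, 3), s(1, 4), s(2, 5)}

/-- `G` is `K_3^3`-saturated.  (`net ⊑ G` is Mathlib's relation saying that `G` has a subgraph
isomorphic to `net`.) -/
def IsSaturated {V : Type} (G : SimpleGraph V) : Prop :=
  ¬ net ⊑ G ∧ ∀ x y : V, x ≠ y → ¬ G.Adj x y → net ⊑ (G ⊔ edge x y)

/-- The saturation number `sat(n, K_3^3)`. -/
noncomputable def sat (n : ℕ) : ℕ :=
  sInf {m : ℕ | ∃ G : SimpleGraph (Fin n), IsSaturated G ∧ G.edgeSet.ncard = m}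

/-- `G` is a `K_3^3`-saturated graph on `n` vertices with `sat(n, K_3^3)` edges. -/
def InSAT {n : ℕ} (G : SimpleGraph (Fin n)) : Prop :=
  IsSaturated G ∧ G.edgeSet.ncard = sat n

/-- For even `n ≥ 4`, the graph `H_n = K_1 ∨ ((n-4)/2 K_2 ∪ K_3)`: the vertex `0` is adjacent to
all others, `1, 2, 3` form the triangle, and `{4, 5}, {6, 7}, …` are the disjoint edges. -/
def H (n : ℕ) : SimpleGraph (Fin n) where
  Adj x y := x.1 ≠ y.1 ∧ (x.1 = 0 ∨ y.1 = 0 ∨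
    (1 ≤ x.1 ∧ x.1 ≤ 3 ∧ 1 ≤ y.1 ∧ y.1 ≤ 3) ∨ (4 ≤ x.1 ∧ 4 ≤ y.1 ∧ x.1 / 2 = y.1 / 2))
  symm := ⟨fun x y h => by omega⟩
  loopless := ⟨fun x h => h.1 rfl⟩

/-- Adjacency of the second graph between non-zero numbers. -/
def r (x y : ℕ) : Prop :=
  (x = 1 ∧ 2 ≤ y ∧ y ≤ 5) ∨ (y = 1 ∧ 2 ≤ x ∧ x ≤ 5) ∨ (6 ≤ x ∧ 6 ≤ y ∧ x / 2 = y / 2)

/-- For even `n ≥ 6`, the graph `K_1 ∨ ((n-6)/2 K_2 ∪ K_{1,4})`: the vertex `0` is adjacent to all
others, `1` is the centre of the star with leaves `2, 3, 4, 5`, and `{6, 7}, {8, 9}, …` are the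
disjoint edges. -/
def G (n : ℕ) : SimpleGraph (Fin n) where
  Adj x y := x.1 ≠ y.1 ∧ (x.1 = 0 ∨ y.1 = 0 ∨ r x.1 y.1)
  symm := ⟨fun x y h => by unfold r at *; omega⟩
  loopless := ⟨fun x h => h.1 rfl⟩

lemma net_adj : ∀ a b : Fin 6, net.Adj a b ↔
    ((a = 0 ∧ b = 1) ∨ (a = 1 ∧ b = 2) ∨ (a = 0 ∧ b = 2) ∨ (a = 0 ∧ b = 3) ∨ (a = 1 ∧ b = 4) ∨
      (a = 2 ∧ b = 5)) ∨
    ((b = 0 ∧ a = 1) ∨ (b = 1 ∧ a = 2) ∨ (b = 0 ∧ a = 2) ∨ (b = 0 ∧ a = 3) ∨ (b = 1 ∧ a = 4) ∨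
      (b = 2 ∧ a = 5)) := by
  intro a b
  simp only [net, fromEdgeSet_adj, Set.mem_insert_iff, Set.mem_singleton_iff, Sym2.eq_iff]
  fin_cases a <;> fin_cases b <;> simp

lemma contained_iff {V : Type} (K : SimpleGraph V) : net ⊑ K ↔ ∃ f : Fin 6 → V,
    Function.Injective f ∧ K.Adj (f 0) (f 1) ∧ K.Adj (f 1) (f 2) ∧ K.Adj (f 0) (f 2) ∧
      K.Adj (f 0) (f 3) ∧ K.Adj (f 1) (f 4) ∧ K.Adj (f 2) (f 5) := by
  constructor
  · rintro ⟨f⟩
    refine ⟨f, f.injective, ?_, ?_, ?_, ?_, ?_, ?_⟩ <;>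
      (apply f.toHom.map_adj; rw [net_adj]; simp)
  · rintro ⟨f, hf, h01, h12, h02, h03, h14, h25⟩
    refine ⟨⟨⟨f, ?_⟩, hf⟩⟩
    intro a b hab
    rw [net_adj] at hab
    rcases hab with (h | h | h | h | h | h) | (h | h | h | h | h | h) <;>
      obtain ⟨rfl, rfl⟩ := h
    · exact h01
    · exact h12
    · exact h02
    · exact h03
    · exact h14
    · exact h25
    · exact h01.symm
    · exact h12.symm
    · exact h02.symm
    · exact h03.symm
    · exact h14.symm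
    · exact h25.symm

/-- There is no path on four non-zero vertices. -/
lemma no_path {a b c d : ℕ} (hab : r a b) (hbc : r b c) (hcd : r c d) (h1 : a ≠ c) (h2 : b ≠ d)
    (h3 : a ≠ d) (h4 : a ≠ b) (h5 : b ≠ c) (h6 : c ≠ d) : False := by
  unfold r at *
  omega

lemma G_free (n : ℕ) : ¬ net ⊑ G n := by
  rw [contained_iff]
  rintro ⟨f, hf, h01, h12, h02, h03, h14, h25⟩
  have hne : ∀ i j : Fin 6, i ≠ j → (f i).1 ≠ (f j).1 := by
    intro i j hij h
    exact hij (hf (Fin.ext h))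
  have hr : ∀ i j : Fin 6, (G n).Adj (f i) (f j) → (f i).1 ≠ 0 → (f j).1 ≠ 0 →
      r (f i).1 (f j).1 := by
    intro i j h hi hj
    rcases h.2 with h | h | h
    · exact absurd h hi
    · exact absurd h hj
    · exact h
  -- at most one of the six vertices is the vertex `0`
  have hz : ∀ i j : Fin 6, i ≠ j → (f i).1 = 0 → (f j).1 ≠ 0 := by
    intro i j hij hi hj
    exact hne i j hij (hi.trans hj.symm)
  by_cases hA : (f 0).1 ≠ 0 ∧ (f 3).1 ≠ 0
  · by_cases hB : (f 1).1 ≠ 0 ∧ (f 4).1 ≠ 0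
    · exact no_path (hr 3 0 h03.symm hA.2 hA.1) (hr 0 1 h01 hA.1 hB.1) (hr 1 4 h14 hB.1 hB.2)
        (hne _ _ (by decide)) (hne _ _ (by decide)) (hne _ _ (by decide)) (hne _ _ (by decide))
        (hne _ _ (by decide)) (hne _ _ (by decide))
    · have hC : (f 2).1 ≠ 0 ∧ (f 5).1 ≠ 0 := by
        by_cases h1 : (f 1).1 = 0
        · exact ⟨hz 1 2 (by decide) h1, hz 1 5 (by decide) h1⟩
        · have h4 : (f 4).1 = 0 := by
            by_contra h4
            exact hB ⟨h1, h4⟩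
          exact ⟨hz 4 2 (by decide) h4, hz 4 5 (by decide) h4⟩
      exact no_path (hr 3 0 h03.symm hA.2 hA.1) (hr 0 2 h02 hA.1 hC.1) (hr 2 5 h25 hC.1 hC.2)
        (hne _ _ (by decide)) (hne _ _ (by decide)) (hne _ _ (by decide)) (hne _ _ (by decide))
        (hne _ _ (by decide)) (hne _ _ (by decide))
  · have hBC : ((f 1).1 ≠ 0 ∧ (f 4).1 ≠ 0) ∧ ((f 2).1 ≠ 0 ∧ (f 5).1 ≠ 0) := by
      by_cases h0 : (f 0).1 = 0
      · exact ⟨⟨hz 0 1 (by decide) h0, hz 0 4 (by decide) h0⟩,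
          ⟨hz 0 2 (by decide) h0, hz 0 5 (by decide) h0⟩⟩
      · have h3 : (f 3).1 = 0 := by
          by_contra h3
          exact hA ⟨h0, h3⟩
        exact ⟨⟨hz 3 1 (by decide) h3, hz 3 4 (by decide) h3⟩,
          ⟨hz 3 2 (by decide) h3, hz 3 5 (by decide) h3⟩⟩
    exact no_path (hr 4 1 h14.symm hBC.1.2 hBC.1.1) (hr 1 2 h12 hBC.1.1 hBC.2.1)
      (hr 2 5 h25 hBC.2.1 hBC.2.2)
      (hne _ _ (by decide)) (hne _ _ (by decide)) (hne _ _ (by decide)) (hne _ _ (by decide))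
      (hne _ _ (by decide)) (hne _ _ (by decide))

/-- A path on four non-zero vertices in `G + xy` and one more vertex give a `K_3^3`. -/
lemma make_net {n : ℕ} (hn : 8 ≤ n) {x y : Fin n} (w1 u1 u2 w2 w3 : ℕ) (b1 : w1 < n) (b2 : u1 < n)
    (b3 : u2 < n) (b4 : w2 < n) (b5 : w3 < n)
    (p1 : 1 ≤ w1) (p2 : 1 ≤ u1) (p3 : 1 ≤ u2) (p4 : 1 ≤ w2) (p5 : 1 ≤ w3)
    (hd : w1 ≠ u1 ∧ w1 ≠ u2 ∧ w1 ≠ w2 ∧ w1 ≠ w3 ∧ u1 ≠ u2 ∧ u1 ≠ w2 ∧ u1 ≠ w3 ∧ u2 ≠ w2 ∧
      u2 ≠ w3 ∧ w2 ≠ w3)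
    (e1 : (G n ⊔ edge x y).Adj ⟨u1, b2⟩ ⟨w1, b1⟩) (e2 : (G n ⊔ edge x y).Adj ⟨u1, b2⟩ ⟨u2, b3⟩)
    (e3 : (G n ⊔ edge x y).Adj ⟨u2, b3⟩ ⟨w2, b4⟩) : net ⊑ (G n ⊔ edge x y) := by
  rw [contained_iff]
  have h0 : ∀ z (hz : z < n), 1 ≤ z → (G n ⊔ edge x y).Adj ⟨0, by omega⟩ ⟨z, hz⟩ := by
    intro z hz h1
    rw [sup_adj]
    exact Or.inl ⟨by show 0 ≠ z; omega, Or.inl rfl⟩
  refine ⟨![⟨0, by omega⟩, ⟨u1, b2⟩, ⟨u2, b3⟩, ⟨w3, b5⟩, ⟨w1, b1⟩, ⟨w2, b4⟩], ?_, h0 _ _ p2, e2,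
    h0 _ _ p3, h0 _ _ p5, e1, e3⟩
  intro i j hij
  have h2 := congrArg Fin.val hij
  fin_cases i <;> fin_cases j <;> first | rfl | (exfalso; simp at h2; omega)

lemma G_saturated {n : ℕ} (hn : 8 ≤ n) (he : Even n) : IsSaturated (G n) := by
  refine ⟨G_free n, ?_⟩
  obtain ⟨m, hm⟩ := he
  -- adjacency helper
  have old : ∀ (x y : Fin n) (a b : ℕ) (ha : a < n) (hb : b < n), a ≠ b → r a b →
      (G n ⊔ edge x y).Adj ⟨a, ha⟩ ⟨b, hb⟩ := by
    intro x y a b ha hb hab h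
    rw [sup_adj]
    exact Or.inl ⟨hab, Or.inr (Or.inr h)⟩
  have new : ∀ (x y : Fin n), x ≠ y → (G n ⊔ edge x y).Adj ⟨x.1, x.2⟩ ⟨y.1, y.2⟩ := by
    intro x y hxy
    rw [sup_adj, edge_adj]
    exact Or.inr ⟨Or.inl ⟨rfl, rfl⟩, hxy⟩
  have key : ∀ x y : Fin n, x ≠ y → ¬ (G n).Adj x y → x.1 < y.1 → net ⊑ (G n ⊔ edge x y) := by
    intro x y hxy hn' hlt
    have hx := x.2
    have hy := y.2
    have hx0 : x.1 ≠ 0 := fun h => hn' ⟨by omega, Or.inl h⟩
    have hr : ¬ r x.1 y.1 := fun h => hn' ⟨by omega, Or.inr (Or.inr h)⟩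
    by_cases c1 : x.1 = 1
    · have hy6 : 6 ≤ y.1 := by
        by_contra hc
        exact hr (Or.inl ⟨c1, by omega, by omega⟩)
      obtain ⟨y', hy1, hy2, hy3, hy4⟩ : ∃ y', y' < n ∧ 6 ≤ y' ∧ y' ≠ y.1 ∧ y.1 / 2 = y' / 2 := by
        by_cases h : y.1 % 2 = 0
        · exact ⟨y.1 + 1, by omega, by omega, by omega, by omega⟩
        · exact ⟨y.1 - 1, by omega, by omega, by omega, by omega⟩
      refine make_net hn 2 x.1 y.1 y' 3 (by omega) hx hy hy1 (by omega) (by omega) (by omega)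
        (by omega) (by omega) (by omega) (by omega) ?_ (new x y hxy) ?_
      · exact old x y _ _ _ _ (by omega) (Or.inl ⟨c1, by omega, by omega⟩)
      · exact old x y _ _ _ _ (by omega) (Or.inr (Or.inr ⟨hy6, hy2, hy4⟩))
    · by_cases c2 : x.1 ≤ 5
      · by_cases c3 : y.1 ≤ 5
        · obtain ⟨l, hl1, hl2, hl3, hl4⟩ : ∃ l, 2 ≤ l ∧ l ≤ 5 ∧ l ≠ x.1 ∧ l ≠ y.1 := by
            by_cases h2 : x.1 = 2
            · by_cases h3 : y.1 = 3
              · exact ⟨4, by omega⟩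
              · exact ⟨3, by omega⟩
            · exact ⟨2, by omega⟩
          refine make_net hn l 1 x.1 y.1 6 (by omega) (by omega) hx hy (by omega) (by omega)
            (by omega) (by omega) (by omega) (by omega) (by omega) ?_ ?_ (new x y hxy)
          · exact old x y _ _ _ _ (by omega) (Or.inl ⟨rfl, by omega, by omega⟩)
          · exact old x y _ _ _ _ (by omega) (Or.inl ⟨rfl, by omega, by omega⟩)
        · obtain ⟨y', hy1, hy2, hy3, hy4⟩ :
              ∃ y', y' < n ∧ 6 ≤ y' ∧ y' ≠ y.1 ∧ y.1 / 2 = y' / 2 := by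
            by_cases h : y.1 % 2 = 0
            · exact ⟨y.1 + 1, by omega, by omega, by omega, by omega⟩
            · exact ⟨y.1 - 1, by omega, by omega, by omega, by omega⟩
          obtain ⟨l, hl1, hl2, hl3⟩ : ∃ l, 2 ≤ l ∧ l ≤ 5 ∧ l ≠ x.1 := by
            by_cases h2 : x.1 = 2
            · exact ⟨3, by omega⟩
            · exact ⟨2, by omega⟩
          refine make_net hn 1 x.1 y.1 y' l (by omega) hx hy hy1 (by omega) (by omega)
            (by omega) (by omega) (by omega) (by omega) (by omega) ?_ (new x y hxy) ?_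
          · exact old x y _ _ _ _ (by omega) (Or.inr (Or.inl ⟨rfl, by omega, by omega⟩))
          · exact old x y _ _ _ _ (by omega) (Or.inr (Or.inr ⟨by omega, hy2, hy4⟩))
      · obtain ⟨x', hx1, hx2, hx3, hx4⟩ :
            ∃ x', x' < n ∧ 6 ≤ x' ∧ x' ≠ x.1 ∧ x.1 / 2 = x' / 2 := by
          by_cases h : x.1 % 2 = 0
          · exact ⟨x.1 + 1, by omega, by omega, by omega, by omega⟩
          · exact ⟨x.1 - 1, by omega, by omega, by omega, by omega⟩
        obtain ⟨y', hy1, hy2, hy3, hy4⟩ :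
            ∃ y', y' < n ∧ 6 ≤ y' ∧ y' ≠ y.1 ∧ y.1 / 2 = y' / 2 := by
          by_cases h : y.1 % 2 = 0
          · exact ⟨y.1 + 1, by omega, by omega, by omega, by omega⟩
          · exact ⟨y.1 - 1, by omega, by omega, by omega, by omega⟩
        have hdiv : x.1 / 2 ≠ y.1 / 2 := fun h => hr (Or.inr (Or.inr ⟨by omega, by omega, h⟩))
        refine make_net hn x' x.1 y.1 y' 1 hx1 hx hy hy1 (by omega) (by omega)
          (by omega) (by omega) (by omega) (by omega) (by omega) ?_ (new x y hxy) ?_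
        · exact old x y _ _ _ _ (by omega) (Or.inr (Or.inr ⟨by omega, hx2, hx4⟩))
        · exact old x y _ _ _ _ (by omega) (Or.inr (Or.inr ⟨by omega, hy2, hy4⟩))
  intro x y hxy hn'
  rcases Nat.lt_or_gt_of_ne (fun h => hxy (Fin.ext h)) with h | h
  · exact key x y hxy hn' h
  · rw [edge_comm]
    exact key y x hxy.symm (fun h' => hn' h'.symm) h

/-- `G n` and `H n` have the same number of edges. -/
lemma card_eq {n : ℕ} (hn : 8 ≤ n) : (G n).edgeSet.ncard = (H n).edgeSet.ncard := by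
  classical
  let v (i : ℕ) (hi : i < 8) : Fin n := ⟨i, by omega⟩
  let a := s(v 1 (by omega), v 4 (by omega))
  let b := s(v 1 (by omega), v 5 (by omega))
  let c := s(v 2 (by omega), v 3 (by omega))
  let d := s(v 4 (by omega), v 5 (by omega))
  have h1 : (G n).edgeSet = insert a (insert b ((H n).edgeSet \ {c, d})) := by
    ext e
    induction e using Sym2.ind with
    | _ x y =>
      simp only [mem_edgeSet, Set.mem_insert_iff, Set.mem_sdiff, Set.mem_singleton_iff, a, b, c, d,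
        v, Sym2.eq_iff, Fin.ext_iff, G, H, r]
      omega
  have h2 : c ∈ (H n).edgeSet := by
    rw [mem_edgeSet]
    refine ⟨by show 2 ≠ 3; omega, Or.inr (Or.inr (Or.inl ⟨?_, ?_, ?_, ?_⟩))⟩ <;> simp [v]
  have h3 : d ∈ (H n).edgeSet := by
    rw [mem_edgeSet]
    refine ⟨by show 4 ≠ 5; omega, Or.inr (Or.inr (Or.inr ⟨?_, ?_, ?_⟩))⟩ <;> simp [v]
  have h4 : c ≠ d := by
    simp only [c, d, v, ne_eq, Sym2.eq_iff, Fin.ext_iff]
    omega
  have h5 : b ∉ ((H n).edgeSet \ {c, d}) := by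
    intro h
    have := h.1
    rw [mem_edgeSet] at this
    simp only [H, v] at this
    omega
  have h6 : a ∉ insert b ((H n).edgeSet \ {c, d}) := by
    rw [Set.mem_insert_iff, not_or]
    refine ⟨?_, ?_⟩
    · simp only [a, b, v, Sym2.eq_iff, Fin.ext_iff]
      omega
    · intro h
      have := h.1
      rw [mem_edgeSet] at this
      simp only [H, v] at this
      omega
  have h7 : ({c, d} : Set (Sym2 (Fin n))) ⊆ (H n).edgeSet := by
    intro e he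
    rcases he with rfl | rfl
    · exact h2
    · exact h3
  have h8 := Set.ncard_le_ncard h7 (Set.toFinite _)
  rw [Set.ncard_pair h4] at h8
  rw [h1, Set.ncard_insert_of_notMem h6 (Set.toFinite _),
    Set.ncard_insert_of_notMem h5 (Set.toFinite _), Set.ncard_sdiff h7 (Set.toFinite _),
    Set.ncard_pair h4]
  omega

/-- `H n` contains `K_4` and `G n` does not. -/
lemma not_iso {n : ℕ} (hn : 8 ≤ n) : ¬ Nonempty (G n ≃g H n) := by
  rintro ⟨φ⟩
  have key : ∀ (i j : ℕ) (hi : i < n) (hj : j < n), i ≠ j → i ≤ 3 → j ≤ 3 →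
      (G n).Adj (φ.symm ⟨i, hi⟩) (φ.symm ⟨j, hj⟩) := by
    intro i j hi hj hij h1 h2
    rw [φ.symm.map_adj_iff]
    refine ⟨hij, ?_⟩
    simp only
    omega
  have h01 := key 0 1 (by omega) (by omega) (by omega) (by omega) (by omega)
  have h02 := key 0 2 (by omega) (by omega) (by omega) (by omega) (by omega)
  have h03 := key 0 3 (by omega) (by omega) (by omega) (by omega) (by omega)
  have h12 := key 1 2 (by omega) (by omega) (by omega) (by omega) (by omega)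
  have h13 := key 1 3 (by omega) (by omega) (by omega) (by omega) (by omega)
  have h23 := key 2 3 (by omega) (by omega) (by omega) (by omega) (by omega)
  simp only [G, r] at h01 h02 h03 h12 h13 h23
  omega

/-- For every even `n ≥ 8`, some member of `SAT(n, K_3^3)` is not isomorphic to `H n`; moreover
`G n` is `K_3^3`-saturated, has as many edges as `H n` and is not isomorphic to `H n`. -/
theorem result :
    (∀ n : ℕ, 8 ≤ n → Even n →
      (∃ K : SimpleGraph (Fin n), InSAT K ∧ ¬ Nonempty (K ≃g H n)) ∧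
      IsSaturated (G n) ∧ (G n).edgeSet.ncard = (H n).edgeSet.ncard ∧
      ¬ Nonempty (G n ≃g H n)) ∧
    ¬ ∃ k : ℕ, ∀ n : ℕ, k ≤ n → Even n → ∀ K : SimpleGraph (Fin n),
      InSAT K ↔ Nonempty (K ≃g H n) := by
  have key : ∀ n : ℕ, 8 ≤ n → Even n → ∃ K : SimpleGraph (Fin n), InSAT K ∧
      ¬ Nonempty (K ≃g H n) := by
    intro n hn he
    have hG := G_saturated hn he
    have hne : {m : ℕ | ∃ G : SimpleGraph (Fin n), IsSaturated G ∧
        G.edgeSet.ncard = m}.Nonempty := ⟨_, G n, hG, rfl⟩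
    have hle : sat n ≤ (G n).edgeSet.ncard := Nat.sInf_le ⟨G n, hG, rfl⟩
    rcases hle.eq_or_lt with h | h
    · exact ⟨G n, ⟨hG, h.symm⟩, not_iso hn⟩
    · obtain ⟨K, hK, hc⟩ := Nat.sInf_mem hne
      refine ⟨K, ⟨hK, hc⟩, ?_⟩
      rintro ⟨φ⟩
      have h1 : K.edgeSet.ncard = (H n).edgeSet.ncard := by
        rw [← Nat.card_coe_set_eq, ← Nat.card_coe_set_eq]
        exact Nat.card_congr φ.mapEdgeSet
      rw [card_eq hn, ← h1] at h
      have : sat n = K.edgeSet.ncard := hc.symm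
      omega
  refine ⟨fun n hn he => ⟨key n hn he, G_saturated hn he, card_eq hn, not_iso hn⟩, ?_⟩
  rintro ⟨k, hk⟩
  obtain ⟨K, hK, hni⟩ := key (2 * (k + 4)) (by omega) ⟨k + 4, by ring⟩
  exact hni ((hk _ (by omega) ⟨k + 4, by ring⟩ K).1 hK)

end Pool.Agent.Results.MP_645dd0_co.SecondExtremalGraph
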